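import Pool.Agent.Q35.TT.Stm4

/-!
# Project TT, job FSF: for surfaces there are only finitely many special lines, projective version
-/

set_option autoImplicit false

namespace Pool.Agent.Q285.TT

open MvPolynomial Pool.Agent.Q35.TT

variable {K : Type} [Field K]

/-- at a point where the form does not vanish no block of coordinates vanishes -/
lemma block [CharZero K] (h2 : S_CHF) {n : ℕ} {F : MvPolynomial (Fin n × Fin 2) K} (hF : Hom4 F)
    {X : Fin n × Fin 2 → K} (hX : eval X F ≠ 0) (j : Fin n) : ∃ b, X (j, b) ≠ 0 := by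
  by_contra hcon
  push Not at hcon
  have h3 := (h2 K n F hF (fun _ => 0)).2.2.2.2.2.1 X (fun i => if i = j then 0 else 1)
  have h4 : (fun p : Fin n × Fin 2 => (if p.1 = j then (0 : K) else 1) * X p) = X := by
    funext p
    by_cases hp : p.1 = j
    · have h5 : X p = 0 := by
        have := hcon p.2
        rw [← hp] at this
        exact this
      rw [if_pos hp, h5, mul_zero]
    · rw [if_neg hp, one_mul]
  rw [h4] at h3
  have h5 : ∏ i : Fin n, (if i = j then (0 : K) else 1) = 0 := Finset.prod_eq_zero (Finset.mem_univ j) (if_pos rfl)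
  rw [h5] at h3
  refine hX ?_
  rw [h3]
  ring

/-- the projective plane of an affine plane -/
def cone {n : ℕ} (ε : Fin n → Fin 2) (J : Finset (Fin n)) (P : Set (Fin n → K)) : Set (Fin n × Fin 2 → K) :=
  {Y | ∃ y ∈ P, ∀ j, j ∉ J → ∃ a : K, a ≠ 0 ∧ ∀ b, Y (j, b) = a * pt ε y (j, b)}

theorem finSpec [CharZero K] (h2 : S_CHF) {n : ℕ} {F : MvPolynomial (Fin n × Fin 2) K} (hF : Hom4 F)
    (h1 : ∀ ε, FinSpec (ch F ε)) : FinSpecF F := by
  classical
  intro J hJ hJ2
  have hfin : (⋃ ε : Fin n → Fin 2, cone ε J '' {P : Set (Fin n → K) | ∃ z, eval z (ch F ε) ≠ 0 ∧ SpecN (ch F ε) z J ∧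
      P = {y | OnPl J z y}}).Finite := by
    refine Set.finite_iUnion fun ε => ?_
    exact (h1 ε J hJ hJ2).image _
  refine hfin.subset ?_
  rintro P ⟨X, hX, hS, rfl⟩
  choose ε hε using block h2 hF hX
  obtain ⟨a, ha⟩ : ∃ a : Fin n → K, a = fun j => (X (j, ε j))⁻¹ := ⟨_, rfl⟩
  have ha0 : ∀ j, a j ≠ 0 := by
    intro j
    rw [ha]
    exact inv_ne_zero (hε j)
  obtain ⟨z, hz⟩ : ∃ z : Fin n → K, z = fun j => a j * X (j, ε j + 1) := ⟨_, rfl⟩
  have hpt : pt ε z = fun p => a p.1 * X p := by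
    funext p
    unfold pt
    by_cases hp : p.2 = ε p.1
    · rw [if_pos hp, ha]
      have : p = (p.1, ε p.1) := Prod.ext rfl hp
      simp only
      rw [this]
      exact (inv_mul_cancel₀ (hε p.1)).symm
    · rw [if_neg hp, hz]
      have h3 : p.2 = ε p.1 + 1 := by
        have : ∀ x y : Fin 2, x ≠ y → x = y + 1 := by decide
        exact this _ _ hp
      have h4 : p = (p.1, ε p.1 + 1) := Prod.ext rfl h3
      simp only
      rw [← h3]
  have hC := h2 K n F hF ε
  rw [Set.mem_iUnion]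
  refine ⟨ε, {y | OnPl J z y}, ⟨z, ?_, ?_, rfl⟩, ?_⟩
  · rw [hC.2.2.1, hpt, hC.2.2.2.2.2.1]
    exact mul_ne_zero (pow_ne_zero _ (Finset.prod_ne_zero_iff.2 fun j _ => ha0 j)) hX
  · rw [hC.2.2.2.1, hpt]
    exact (hC.2.2.2.2.2.2 X a J ha0).2 hS
  · ext Y
    constructor
    · rintro ⟨y, hy, h3⟩ j hj
      obtain ⟨c, hc, h4⟩ := h3 j hj
      refine ⟨c * a j, mul_ne_zero hc (ha0 j), fun b => ?_⟩
      have h5 : pt ε y (j, b) = pt ε z (j, b) := by
        unfold pt
        have h6 : y j = z j := hy j hj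
        rw [h6]
      rw [h4, h5, hpt]
      ring
    · intro h3
      refine ⟨z, fun _ _ => rfl, fun j hj => ?_⟩
      obtain ⟨c, hc, h4⟩ := h3 j hj
      refine ⟨c * (a j)⁻¹, mul_ne_zero hc (inv_ne_zero (ha0 j)), fun b => ?_⟩
      rw [h4, hpt]
      have := ha0 j
      field_simp

theorem fsf (h1 : S_FS2) (h2 : S_CHF) : S_FSF := by
  intro K _ _ F hF hS
  exact finSpec h2 hF fun ε => h1 K _ (h2 K 2 F hF ε).1 ((h2 K 2 F hF ε).2.1 hS)

end Pool.Agent.Q285.TT
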